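import Pool.Agent.K.MP_260cc8_ag.C0

/-!
Over every field there is a prime ideal with smooth quotient and free conormal module of rank three
which needs four generators. The witness is `(x.y - 1, x × w)` in nine variables.
-/

namespace Pool.Agent.Results.MP_260cc8_ag.AllFields

open Pool.Agent.P.MP_260cc8_ag.af

theorem result (k : Type) [Field k] : ∃ I : Ideal (MvPolynomial (Fin 9) k),
    I.IsPrime ∧ Algebra.Smooth k (MvPolynomial (Fin 9) k ⧸ I) ∧
      Module.Free (MvPolynomial (Fin 9) k ⧸ I) I.Cotangent ∧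
      Module.finrank (MvPolynomial (Fin 9) k ⧸ I) I.Cotangent = 3 ∧
      sInf {m : ℕ | ∃ g : Fin m → I.Cotangent,
        Submodule.span (MvPolynomial (Fin 9) k) (Set.range g) = ⊤} = 3 ∧
      sInf {m : ℕ | ∃ f : Fin m → MvPolynomial (Fin 9) k, Ideal.span (Set.range f) = I} = 4 := by
  have := Ideal.Quotient.nontrivial_iff.mpr (J9_prime (k := k)).ne_top
  exact ⟨J9 k, J9_prime, J9_smooth, Module.Free.of_basis (b9 k),
    by rw [Module.finrank_eq_card_basis (b9 k), Fintype.card_fin], mu_cot, mu_J9⟩

end Pool.Agent.Results.MP_260cc8_ag.AllFields
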