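import Pool.Agent.P.MP_260cc8_ag.ShTop

/-!
Over every subfield of the reals and in every even dimension `d > 0` there is an absolutely prime
ideal in `2d+1` variables with smooth quotient of dimension `d` and free conormal module of rank
`d+1` which needs `d+2` generators.
-/

namespace Pool.Agent.Results.MP_260cc8_ag.SharpBound

open Pool.Agent.P.MP_260cc8_ag.Sh

theorem result (k : Type) [Field k] (φ : k →+* ℝ) (d : ℕ) (hd : Even d) (hd0 : 0 < d) :
    ∃ I : Ideal (MvPolynomial (Fin (d + 1 + d)) k),
      I.IsPrime ∧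
      (∀ (K : Type) [Field K] [Algebra k K],
        (I.map (MvPolynomial.map (algebraMap k K))).IsPrime) ∧
      Algebra.Smooth k (MvPolynomial (Fin (d + 1 + d)) k ⧸ I) ∧
      ringKrullDim (MvPolynomial (Fin (d + 1 + d)) k ⧸ I) = d ∧
      Module.Free (MvPolynomial (Fin (d + 1 + d)) k ⧸ I) I.Cotangent ∧
      Module.finrank (MvPolynomial (Fin (d + 1 + d)) k ⧸ I) I.Cotangent = d + 1 ∧
      sInf {m : ℕ | ∃ g : Fin m → I.Cotangent,
        Submodule.span (MvPolynomial (Fin (d + 1 + d)) k) (Set.range g) = ⊤} = d + 1 ∧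
      sInf {m : ℕ | ∃ f : Fin m → MvPolynomial (Fin (d + 1 + d)) k,
        Ideal.span (Set.range f) = I} = d + 2 := by
  have : CharZero k := φ.charZero
  have := Ideal.Quotient.nontrivial_iff.mpr (II_prime k d hd0).ne_top
  refine ⟨II k d, II_prime k d hd0, fun K _ _ => ?_, smooth_II k d,
    dim_II k d, Module.Free.of_basis (bas k d hd0), ?_, mu_cot k d hd0, mu_II φ d hd hd0⟩
  · rw [II_map φ d K]
    exact II_prime K d hd0
  · rw [Module.finrank_eq_card_basis (bas k d hd0), Fintype.card_fin]

end Pool.Agent.Results.MP_260cc8_ag.SharpBound
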